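import Mathlib
import Pool.Agent.H57.QMult

namespace Pool.Agent.Results.MP_97e2c3_nt.Full
open Finset Polynomial Pool.Agent.H57.QMult

noncomputable def v (p : ℤ[X]) : ℤ := p.eval (-1)
noncomputable def d (p : ℤ[X]) : ℤ := (derivative p).eval (-1)

theorem v_mul (p q : ℤ[X]) : v (p * q) = v p * v q := eval_mul
theorem d_mul (p q : ℤ[X]) : d (p * q) = d p * v q + v p * d q := by simp [d, v]
theorem v_pow (p : ℤ[X]) (k : ℕ) : v (p ^ k) = v p ^ k := eval_pow k
theorem d_pow (p : ℤ[X]) (k : ℕ) : d (p ^ (k + 1)) = (k + 1) * v p ^ k * d p := by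
  simp [d, v, derivative_pow_succ]
theorem v_sub (p q : ℤ[X]) : v (p - q) = v p - v q := eval_sub ..
theorem d_sub (p q : ℤ[X]) : d (p - q) = d p - d q := by simp [d]

theorem qi_vd (t : ℕ) : (v (qi (2 * t)) = 0 ∧ d (qi (2 * t)) = t) ∧
    v (qi (2 * t + 1)) = 1 ∧ d (qi (2 * t + 1)) = -t := by
  have h : ∀ s, v (qi (s + 1)) = v (qi s) + (-1) ^ s ∧ d (qi (s + 1)) = d (qi s) - s * (-1) ^ s := by
    intro s
    rcases s with _ | s
    · simp [v, d, qi]
    · simp [v, d, qi, sum_range_succ _ (s + 1), pow_succ (-1 : ℤ)]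
  have e : ∀ t, (-1 : ℤ) ^ (2 * t) = 1 := fun t => by simp [pow_mul]
  induction t with
  | zero => simp [v, d, qi]
  | succ t ih =>
    obtain ⟨-, h1, h2⟩ := ih
    have h3 := h (2 * t + 1)
    have h4 := h (2 * (t + 1))
    rw [pow_succ, e, h1, h2] at h3
    rw [e, show 2 * (t + 1) = 2 * t + 1 + 1 by ring, h3.1, h3.2] at h4
    rw [show 2 * (t + 1) = 2 * t + 1 + 1 by ring, h3.1, h3.2, h4.1, h4.2]
    push_cast
    refine ⟨⟨?_, ?_⟩, ?_, ?_⟩ <;> first | trivial | ring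

theorem ex_vd (t : ℕ) : v (expand ℤ 2 (qi t)) = t ∧ d (expand ℤ 2 (qi t)) = -t * (t - 1) := by
  induction t with
  | zero => simp [v, d, qi]
  | succ t ih =>
    have e : expand ℤ 2 (qi (t + 1)) = expand ℤ 2 (qi t) + (X ^ 2) ^ t := by
      simp [qi, sum_range_succ]
    have e2 : d ((X ^ 2) ^ t) = -2 * t := by
      rcases t with _ | t
      · simp [d]
      · rw [d_pow]; simp [d, v]; ring
    rw [e]
    constructor
    · have := ih.1
      simp only [v, eval_add] at this ⊢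
      simp [this]
    · have := ih.2
      simp only [d, map_add, eval_add] at this e2 ⊢
      rw [this, e2]; push_cast; ring

noncomputable def Ps (t : ℕ) : ℤ[X] := ∏ s ∈ range t, psi 2 (s + 1)

theorem Ps_vd (u : ℕ) : (v (Ps (2 * u)) = u.factorial ∧ d (Ps (2 * u)) = -u * (u - 1) * u.factorial)
    ∧ v (Ps (2 * u + 1)) = u.factorial ∧ d (Ps (2 * u + 1)) = -u ^ 2 * u.factorial := by
  have h1 : ∀ u, Ps (2 * u + 1) = Ps (2 * u) * qi (2 * u + 1) := fun u => by
    rw [Ps, prod_range_succ, psi, if_neg (by omega), Ps]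
  have h2 : ∀ u, Ps (2 * (u + 1)) = Ps (2 * u + 1) * expand ℤ 2 (qi (u + 1)) := fun u => by
    rw [Ps, show 2 * (u + 1) = 2 * u + 1 + 1 by ring, prod_range_succ, psi, if_pos (by omega), Ps,
      show (2 * u + 1 + 1) / 2 = u + 1 by omega]
  have h3 : ∀ u, (v (Ps (2 * u)) = u.factorial ∧ d (Ps (2 * u)) = -u * (u - 1) * u.factorial) →
      v (Ps (2 * u + 1)) = u.factorial ∧ d (Ps (2 * u + 1)) = -u ^ 2 * u.factorial := by
    intro u h
    rw [h1, v_mul, d_mul, h.1, h.2, (qi_vd u).2.1, (qi_vd u).2.2]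
    constructor <;> ring
  induction u with
  | zero => exact ⟨by simp [v, d, Ps], h3 0 (by simp [v, d, Ps])⟩
  | succ u ih =>
    refine (fun h => ⟨h, h3 _ h⟩) ?_
    rw [h2, v_mul, d_mul, ih.2.1, ih.2.2, (ex_vd _).1, (ex_vd _).2, Nat.factorial_succ]
    push_cast
    constructor <;> ring

theorem G_spec (a b : ℕ) : MM ![a, b] * (qf a * qf b) = qf (a + b) := by
  simpa using MM_spec ![a, b]

theorem G_ps (a b c : ℕ) (h : (a + b) / 2 = a / 2 + b / 2 + c) :
    MM ![a, b] * (Ps a * Ps b) = Ps (a + b) * qi 2 ^ c := by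
  have h1 := G_spec a b
  have hq : qi 2 ≠ 0 := by
    intro h0
    have := eval_qi 2
    rw [h0] at this
    simp at this
  simp only [qf_eq 2, h] at h1
  apply mul_right_cancel₀ (pow_ne_zero (a / 2 + b / 2) hq)
  simp only [Ps, pow_add] at h1 ⊢
  linear_combination h1

theorem fac (x y : ℕ) : ((x + y).factorial : ℤ) = (x + y).choose x * (x.factorial * y.factorial) := by
  rw [add_comm, ← mul_assoc, mul_right_comm]
  exact_mod_cast (Nat.add_choose_mul_factorial_mul_factorial y x).symm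

theorem G_vd {a b x y : ℕ} {la lb lc : ℤ} (h : (a + b) / 2 = a / 2 + b / 2)
    (ha : v (Ps a) = x.factorial ∧ d (Ps a) = la * x.factorial)
    (hb : v (Ps b) = y.factorial ∧ d (Ps b) = lb * y.factorial)
    (hc : v (Ps (a + b)) = (x + y).factorial ∧ d (Ps (a + b)) = lc * (x + y).factorial) :
    v (MM ![a, b]) = (x + y).choose x ∧ d (MM ![a, b]) = (lc - la - lb) * (x + y).choose x := by
  have h1 := G_ps a b 0 h
  rw [pow_zero, mul_one] at h1
  have h2 := congrArg v h1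
  have h3 := congrArg d h1
  simp only [v_mul, d_mul, ha.1, ha.2, hb.1, hb.2, hc.1, hc.2, fac x y] at h2 h3
  have ne : (x.factorial * y.factorial : ℤ) ≠ 0 := by positivity
  have h4 := mul_right_cancel₀ ne h2
  refine ⟨h4, mul_right_cancel₀ ne ?_⟩
  rw [h4] at h3
  linear_combination h3

noncomputable def Zp (a : ℕ) : ℤ[X] := ∏ s ∈ range a, X ^ (s + 1)

theorem Zp_vd (u : ℕ) : (v (Zp (2 * u)) = (-1) ^ u ∧ d (Zp (2 * u)) = -u * (2 * u + 1) * (-1) ^ u)
    ∧ v (Zp (2 * u + 1)) = -(-1) ^ u ∧ d (Zp (2 * u + 1)) = (u + 1) * (2 * u + 1) * (-1) ^ u := by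
  have h : ∀ s, v (Zp (s + 1)) = -v (Zp s) * (-1) ^ s ∧
      d (Zp (s + 1)) = (-d (Zp s) + (s + 1) * v (Zp s)) * (-1) ^ s := by
    intro s
    rw [Zp, prod_range_succ, ← Zp, v_mul, d_mul, d_pow, v_pow]
    simp only [v, d, eval_X, derivative_X, eval_one]
    constructor <;> ring
  have e : ∀ t, (-1 : ℤ) ^ (2 * t) = 1 := fun t => by simp [pow_mul]
  induction u with
  | zero => simp [v, d, Zp]
  | succ t ih =>
    obtain ⟨-, h1, h2⟩ := ih
    have h3 := h (2 * t + 1)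
    have h4 := h (2 * (t + 1))
    rw [pow_succ, e, h1, h2] at h3
    rw [e, show 2 * (t + 1) = 2 * t + 1 + 1 by ring, h3.1, h3.2] at h4
    rw [show 2 * (t + 1) = 2 * t + 1 + 1 by ring, h3.1, h3.2, h4.1, h4.2]
    push_cast
    refine ⟨⟨?_, ?_⟩, ?_, ?_⟩ <;> ring

theorem W_eq (a b : ℕ) : Wp ![a, b] = (-1) ^ (a + b) * (Zp a * Zp b) * MM ![a, b] := by
  simp [Wp, Zp]

noncomputable def tm (n r a b : ℕ) : ℤ[X] := Wp ![a, b] ^ r * (qi (n - 1 - (a + b)) - qi a)

theorem P_eq (n r : ℕ) : P 1 n r = ∑ k ∈ range n, ∑ j ∈ range (k + 1), tm n r j (k - j) := by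
  rw [P, sum_D]
  refine sum_congr rfl fun k _ => ?_
  rw [Finset.Nat.antidiagonalTuple_two, sum_map, Finset.Nat.sum_antidiagonal_eq_sum_range_succ_mk]
  refine sum_congr rfl fun j _ => ?_
  simp only [tm, Fin.sum_univ_two]
  rfl

theorem sg (k : ℕ) : v ((-1) ^ k) = (-1) ^ k ∧ d ((-1) ^ k) = 0 := by
  constructor
  · simp [v]
  · rcases k with _ | k
    · simp [d]
    · rw [d_pow]; simp [d]

theorem four (x y z r : ℕ) :
    d (tm (2 * (x + y + z + 1)) (r + 1) (2 * x) (2 * y))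
      + (d (tm (2 * (x + y + z + 1)) (r + 1) (2 * x) (2 * y + 1))
      + d (tm (2 * (x + y + z + 1)) (r + 1) (2 * x + 1) (2 * y)))
    = ((-1) ^ (x + y) * (x + y).choose x) ^ (r + 1) * (r * (x + y + 1 + x) + (x + y + z + 1)) := by
  have g0 := G_vd (a := 2 * x) (b := 2 * y) (by omega) (Ps_vd x).1 (Ps_vd y).1
    (by rw [← mul_add]; exact (Ps_vd (x + y)).1)
  have g1 := G_vd (a := 2 * x) (b := 2 * y + 1) (by omega) (Ps_vd x).1 (Ps_vd y).2
    (by rw [← add_assoc, ← mul_add]; exact (Ps_vd (x + y)).2)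
  have g2 := G_vd (a := 2 * x + 1) (b := 2 * y) (by omega) (Ps_vd x).2 (Ps_vd y).1
    (by rw [add_right_comm, ← mul_add]; exact (Ps_vd (x + y)).2)
  have e : ∀ t, (-1 : ℤ) ^ (2 * t) = 1 := fun t => by simp [pow_mul]
  simp only [tm]
  rw [show 2 * (x + y + z + 1) - 1 - (2 * x + 2 * y) = 2 * z + 1 by omega,
    show 2 * (x + y + z + 1) - 1 - (2 * x + (2 * y + 1)) = 2 * z by omega,
    show 2 * (x + y + z + 1) - 1 - (2 * x + 1 + 2 * y) = 2 * z by omega]
  simp only [W_eq, d_mul, v_mul, d_pow, v_pow _ (r + 1), v_sub, d_sub, sg, g0, g1, g2, qi_vd, Zp_vd,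
    pow_add (-1 : ℤ), e]
  push_cast
  simp only [one_mul, mul_one, mul_neg, neg_mul, neg_neg, pow_one]
  generalize ((x + y).choose x : ℤ) = C
  ring

theorem odd2 (n x y r : ℕ) : d (tm n (r + 2) (2 * x + 1) (2 * y + 1)) = 0 := by
  have h := congrArg v (G_ps (2 * x + 1) (2 * y + 1) 1 (by omega))
  have h0 := (qi_vd 1).1.1
  simp only [v_mul, pow_one, (Ps_vd _).2.1, mul_one] at h h0
  rw [h0, mul_zero] at h
  have h1 := (mul_eq_zero.mp h).resolve_right (by positivity)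
  simp [tm, W_eq, d_mul, d_pow _ (r + 1), v_mul, v_pow, h1]

theorem split (g : ℕ → ℤ) (m : ℕ) :
    ∑ j ∈ range (2 * m), g j = ∑ x ∈ range m, (g (2 * x) + g (2 * x + 1)) := by
  induction m with
  | zero => simp
  | succ m ih => rw [mul_add, mul_one, sum_range_succ, sum_range_succ, ih, sum_range_succ, add_assoc]

def T (n r : ℕ) : ℤ :=
  ∑ k ∈ range n, ∑ j ∈ range (k + 1), ((-1) ^ k * k.choose j) ^ r * (k + 1 + j)

def O (n r : ℕ) : ℤ := ∑ k ∈ range n, ∑ j ∈ range (k + 1), ((-1) ^ k * k.choose j) ^ r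

theorem dP (h r : ℕ) : d (P 1 (2 * h) (r + 2)) = (r + 1) * T h (r + 2) + h * O h (r + 2) := by
  have ds : ∀ (s : Finset ℕ) (f : ℕ → ℤ[X]), d (∑ i ∈ s, f i) = ∑ i ∈ s, d (f i) := by
    intro s f
    simp [d, eval_finsetSum]
  rw [P_eq, ds, split, T, O, mul_sum, mul_sum, ← sum_add_distrib]
  refine sum_congr rfl fun k hk => ?_
  obtain ⟨z, rfl⟩ : ∃ z, h = k + z + 1 := ⟨h - k - 1, by have := mem_range.mp hk; omega⟩
  rw [ds, ds, show 2 * k + 1 + 1 = 2 * (k + 1) by ring, split, sum_range_succ, split,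
    sum_add_distrib, sum_eq_zero (s := range k) (f := fun x => d (tm _ _ (2 * x + 1) _)), add_zero,
    ← sum_range_succ (fun x => d (tm (2 * (k + z + 1)) (r + 2) (2 * x) (2 * k - 2 * x))), mul_sum,
    mul_sum, ← sum_add_distrib, ← sum_add_distrib]
  · refine sum_congr rfl fun x hx => ?_
    obtain ⟨y, rfl⟩ : ∃ y, k = x + y := ⟨k - x, by have := mem_range.mp hx; omega⟩
    rw [show 2 * (x + y) - 2 * x = 2 * y by omega, show 2 * (x + y) + 1 - 2 * x = 2 * y + 1 by omega,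
      show 2 * (x + y) + 1 - (2 * x + 1) = 2 * y by omega, four x y z (r + 1)]
    push_cast
    ring
  · intro x hx
    rw [show 2 * k - (2 * x + 1) = 2 * (k - x - 1) + 1 by have := mem_range.mp hx; omega, odd2]

theorem P_one (n r : ℕ) : (P 1 n r).eval 1 = n * O n r - T n r := by
  rw [P_eq, T, O, eval_finsetSum, mul_sum, ← sum_sub_distrib]
  refine sum_congr rfl fun k hk => ?_
  rw [eval_finsetSum, mul_sum, ← sum_sub_distrib]
  refine sum_congr rfl fun x hx => ?_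
  obtain ⟨y, rfl⟩ : ∃ y, k = x + y := ⟨k - x, by have := mem_range.mp hx; omega⟩
  obtain ⟨z, rfl⟩ : ∃ z, n = x + y + z + 1 := ⟨n - (x + y) - 1, by have := mem_range.mp hk; omega⟩
  have h := congrArg (eval 1) (G_spec x y)
  simp only [eval_mul, eval_qf, fac x y] at h
  have h1 := mul_right_cancel₀ (by positivity) h
  rw [show x + y - x = y by omega, tm, show x + y + z + 1 - 1 - (x + y) = z by omega]
  simp only [W_eq, eval_mul, eval_pow, eval_sub, eval_qi, h1, Zp, eval_prod, eval_X, one_pow,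
    prod_const_one, eval_neg, eval_one, mul_one]
  push_cast
  ring

theorem n_dvd (n r : ℕ) (hn : 0 < n) : (n : ℤ) ∣ T n r := by
  have h := dvd_P 1 n r hn
  rw [P_one] at h
  exact (dvd_sub_right (dvd_mul_right _ _)).1 h

theorem qi_dvd (n r : ℕ) (hn : 0 < n) : qi n ∣ P 1 n r := by
  have h := Complex.isPrimitiveRoot_exp n hn.ne'
  rw [← mul_dvd_mul_iff_right X1, qi_mul, ← map_dvd_map (Int.castRingHom ℂ) Int.cast_injective
    (by simpa using monic_X_pow_sub_C (1 : ℤ) hn.ne')]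
  simp only [Polynomial.map_sub, Polynomial.map_pow, map_X, Polynomial.map_one, map_one]
  rw [X_pow_sub_one_eq_prod hn h]
  refine prod_dvd_of_coprime (fun a _ b _ hab => isCoprime_X_sub_C_of_isUnit_sub
    (sub_ne_zero.mpr hab).isUnit) fun z hz => ?_
  have h1 := (mem_nthRootsFinset hn 1).mp hz
  rw [dvd_iff_isRoot, IsRoot, eval_map, ← algebraMap_int_eq, ← aeval_def, map_mul]
  by_cases h2 : z = 1
  · simp [h2]
  · have h3 := orderOf_dvd_of_pow_eq_one h1
    have h4 := Nat.pos_of_dvd_of_pos h3 hn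
    rw [← orderOf_eq_one_iff] at h2
    rw [ev_P (IsPrimitiveRoot.orderOf z) (by omega) 1 n r h3, zero_mul]

theorem par (x : ℤ) (r : ℕ) : (2 : ℤ) ∣ x ^ (r + 1) - x := by
  rw [← even_iff_two_dvd, Int.even_sub, Int.even_pow' (by omega)]

theorem T_one (n : ℕ) : 2 * T n 1 = -(-2) ^ n * n ∧ 3 * O n 1 = 1 - (-2) ^ n := by
  induction n with
  | zero => simp [T, O]
  | succ n ih =>
    have h1 : ∑ j ∈ range (n + 1), (n.choose j : ℤ) = 2 ^ n := by exact_mod_cast Nat.sum_range_choose n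
    have h2 : 2 * ∑ j ∈ range (n + 1), (n.choose j * j : ℤ) = n * 2 ^ n := by
      have := Nat.sum_range_mul_choose n
      rcases n with _ | n
      · simp
      · simp only [mul_comm (Nat.choose _ _ : ℤ)]
        rw [pow_succ, mul_comm, ← mul_assoc]
        congr 1
        exact_mod_cast this
    have e1 : T (n + 1) 1 = T n 1 + ∑ j ∈ range (n + 1), ((-1) ^ n * n.choose j : ℤ) ^ 1 * (n + 1 + j) :=
      sum_range_succ _ n
    have e2 : O (n + 1) 1 = O n 1 + ∑ j ∈ range (n + 1), ((-1) ^ n * n.choose j : ℤ) ^ 1 :=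
      sum_range_succ _ n
    rw [e1, e2]
    simp only [pow_one, mul_add _ ((n : ℤ) + 1), mul_assoc, sum_add_distrib, ← mul_sum, ← sum_mul, h1]
    rw [pow_succ, neg_pow (2 : ℤ)] at *
    push_cast
    constructor
    · linear_combination ih.1 + (-1) ^ n * h2
    · linear_combination ih.2

theorem T_par (n r : ℕ) : (2 : ℤ) ∣ T n (r + 1) - T n 1 ∧ (2 : ℤ) ∣ O n (r + 1) - O n 1 := by
  simp only [T, O, ← sum_sub_distrib, ← sub_mul, pow_one]
  exact ⟨dvd_sum fun k _ => dvd_sum fun j _ => (par _ r).mul_right _,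
    dvd_sum fun k _ => dvd_sum fun j _ => par _ r⟩

theorem O_odd (n r : ℕ) (hn : 0 < n) : (2 : ℤ) ∣ O n (r + 1) - 1 := by
  obtain ⟨n, rfl⟩ : ∃ m, n = m + 1 := ⟨n - 1, by omega⟩
  have h1 := (T_par (n + 1) r).2
  have h2 := (T_one (n + 1)).2
  rw [pow_succ] at h2
  omega

theorem main (n r : ℕ) (hn : 1 < n) : (2 * n : ℤ) ∣ T n (2 * r + 1) := by
  have t1 : (2 * n : ℤ) ∣ T n 1 := by
    obtain ⟨m, rfl⟩ : ∃ m, n = m + 2 := ⟨n - 2, by omega⟩
    refine ⟨-(-2) ^ m, mul_left_cancel₀ two_ne_zero ?_⟩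
    rw [(T_one _).1]; ring
  rcases r with _ | r
  · exact t1
  rcases Nat.even_or_odd' n with ⟨h, rfl | rfl⟩
  · obtain ⟨U, hU⟩ := qi_dvd (2 * h) (2 * r + 1 + 2) (by omega)
    have h1 := congrArg d hU
    have h2 := congrArg (eval 1) hU
    obtain ⟨c, hc⟩ := n_dvd h (2 * r + 1 + 2) (by omega)
    rw [dP, d_mul, (qi_vd h).1.1, (qi_vd h).1.2, zero_mul, add_zero, hc] at h1
    rw [P_one, eval_mul, eval_qi] at h2
    have h3 : v U = 2 * (r + 1) * c + O h (2 * r + 1 + 2) := by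
      apply mul_left_cancel₀ (by omega : (h : ℤ) ≠ 0)
      rw [← h1]; push_cast; ring
    obtain ⟨c1, h4⟩ := sub_dvd_eval_sub 1 (-1) U
    obtain ⟨c2, h5⟩ := O_odd h (2 * r + 2) (by omega)
    obtain ⟨c3, h6⟩ := O_odd (2 * h) (2 * r + 2) (by omega)
    refine ⟨c3 - c2 - c1 - (r + 1) * c, ?_⟩
    rw [v] at h3
    rw [show 2 * (r + 1) + 1 = 2 * r + 1 + 2 by ring]
    linear_combination -h2 - ((2 * h : ℕ) : ℤ) * (h4 + h3 + h5 - h6)
  · refine IsCoprime.mul_dvd ⟨-h, 1, by push_cast; ring⟩ ?_ (n_dvd _ _ (by omega))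
    have h1 := (T_par (2 * h + 1) (2 * (r + 1))).1
    have h2 := (dvd_mul_right _ _).trans t1
    omega

theorem result (n r : ℕ) (hn : 1 < n) : (4 * n : ℤ) ∣ ∑ k ∈ range n,
    (-1) ^ k * (3 * (k : ℤ) + 2) * ∑ j ∈ range (k + 1), (k.choose j : ℤ) ^ (2 * r + 1) := by
  have h := mul_dvd_mul_left 2 (main n r hn)
  rw [← mul_assoc, T, mul_sum] at h
  refine h.trans (dvd_of_eq (sum_congr rfl fun k _ => ?_))
  rw [two_mul]
  nth_rewrite 2 [← sum_range_reflect]
  rw [← sum_add_distrib, mul_sum]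
  refine sum_congr rfl fun j hj => ?_
  have hj : j ≤ k := by have := mem_range.mp hj; omega
  rw [Nat.add_sub_cancel, Nat.choose_symm hj, Nat.cast_sub hj, mul_pow, ← pow_mul, mul_comm k,
    pow_mul, (odd_two_mul_add_one r).neg_one_pow]
  ring

end Pool.Agent.Results.MP_97e2c3_nt.Full
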